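import Pool.Agent.Helper20.NP.Stmts
import Pool.Agent.Helper24.DN.GRF

/-! # Module APX: approximation by elements of the base field -/

set_option autoImplicit false

namespace Pool.Agent.Helper20.NP

open Pool.Agent.Helper21.DN

universe u

section

theorem apx_val {L : Type u} [Field L] {ι : Type} [DecidableEq ι]
    (v : AddValuation L (WithTop ℤ)) (f : ι → L) (P : ℤ → Prop) (s : Finset ι)
    (hd : ∀ i ∈ s, ∀ j ∈ s, i ≠ j → f i ≠ 0 → v (f i) ≠ v (f j))
    (hP : ∀ i ∈ s, f i ≠ 0 → ∃ m : ℤ, v (f i) = (m : WithTop ℤ) ∧ P m) :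
    ∑ i ∈ s, f i = 0 ∨ ∃ m : ℤ, v (∑ i ∈ s, f i) = (m : WithTop ℤ) ∧ P m := by
  by_cases h0 : ∀ i ∈ s, f i = 0
  · exact Or.inl (Finset.sum_eq_zero h0)
  · right
    push Not at h0
    obtain ⟨i1, hi1, hi1'⟩ := h0
    obtain ⟨i0, hi0, hmin⟩ := Finset.exists_min_image s (fun i => v (f i)) ⟨i1, hi1⟩
    have hne : f i0 ≠ 0 := by
      intro h
      have h1 := hmin i1 hi1
      simp only [h, AddValuation.map_zero, top_le_iff] at h1
      exact hi1' ((AddValuation.top_iff v).1 h1)
    obtain ⟨m, hm, hPm⟩ := hP i0 hi0 hne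
    refine ⟨m, ?_, hPm⟩
    rw [← Finset.add_sum_erase s f hi0]
    rw [AddValuation.map_add_eq_of_lt_left, hm]
    apply AddValuation.map_lt_sum
    · rw [hm]; exact WithTop.coe_ne_top
    · intro i hi
      have hi' := Finset.mem_erase.1 hi
      exact lt_of_le_of_ne (hmin i hi'.2) (hd i0 hi0 i hi'.2 hi'.1.symm hne)

theorem apx_top (n : ℕ) (hn : 0 < n) : n • (⊤ : WithTop ℤ) = ⊤ := grf_smul_top n hn

/-- comparison after multiplication by a natural number -/
theorem apx_nsmul_le (n : ℕ) (hn : 0 < n) (a : ℤ) (x : WithTop ℤ) :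
    (a : WithTop ℤ) ≤ n • x ↔ x = ⊤ ∨ ∃ b : ℤ, x = (b : WithTop ℤ) ∧ a ≤ (n : ℤ) * b := by
  induction x using WithTop.recTopCoe with
  | top => simp [apx_top n hn]
  | coe b =>
    rw [← WithTop.coe_nsmul, WithTop.coe_le_coe, nsmul_eq_mul]
    constructor
    · intro h
      exact Or.inr ⟨b, rfl, by simpa using h⟩
    · rintro (h | ⟨b', hb, h⟩)
      · exact absurd h WithTop.coe_ne_top
      · rw [WithTop.coe_inj] at hb
        subst hb
        simpa using h

open scoped Classical in
theorem apx_pow {G : Type u} [Group G] (f : G → ℕ) (hf : RF f) (z : G) (n : ℕ) :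
    z ^ n ≠ 1 → f z ≤ f (z ^ n) := by
  induction n with
  | zero => intro h; exact absurd (pow_zero z) h
  | succ n ih =>
    intro h
    by_cases hn : z ^ n = 1
    · rw [pow_succ, hn, one_mul]
    · have hz : z ≠ 1 := by
        rintro rfl
        exact hn (one_pow n)
      have h1 := hf.mul (z ^ n) z hn hz (by rw [← pow_succ]; exact h)
      rw [← pow_succ] at h1
      exact le_trans (le_min (ih hn) le_rfl) h1

open scoped Classical in
theorem apx_S1 (hP3 : ST_P3.{u}) (hRFV : ST_RFV.{u}) (p : ℕ) [Fact p.Prime]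
    {k K L : Type u} [Field k] [CharP k p] [Field K] [Field L] [Algebra K L]
    [FiniteDimensional K L] [IsGalois K L] (κ : k →+* K)
    (v : AddValuation L (WithTop ℤ)) (hR : Ram κ v) (hp : IsPGroup p (L ≃ₐ[K] L))
    (ζ : L ≃ₐ[K] L) (ho : orderOf ζ = p) (J : Subgroup (L ≃ₐ[K] L)) [J.Normal]
    (hJ : J = Subgroup.zpowers ζ) (F : IntermediateField K L) [Normal K F]
    (hF : F = IntermediateField.fixedField J)
    (vE : AddValuation F (WithTop ℤ)) (t1 : TV ((algebraMap K F).comp κ) vE)
    (t2 : ∀ x : F, v (x : L) = Module.finrank F L • vE x) :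
    (p - 1) * s v ζ + p * S1 (fun σ : F ≃ₐ[K] F => s vE σ) ≤
      S1 (fun σ : L ≃ₐ[K] L => s v σ) := by
  have hrf : RF (fun σ : L ≃ₐ[K] L => s v σ) := hRFV p k K L κ v hR hp
  have hcJ : Nat.card J = p := by rw [hJ, Nat.card_zpowers, ho]
  set r : (L ≃ₐ[K] L) →* (F ≃ₐ[K] F) := AlgEquiv.restrictNormalHom F with hr
  have hrs : Function.Surjective r := AlgEquiv.restrictNormalHom_surjective L
  have hker : r.ker = J := by
    rw [hr, IntermediateField.restrictNormalHom_ker, hF,
      IntermediateField.fixingSubgroup_fixedField]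
  have hne : ∀ g, r g ≠ 1 ↔ g ∉ J := by
    intro g
    rw [← hker, MonoidHom.mem_ker]
  have hfix : F.fixingSubgroup = J := by
    rw [hF, IntermediateField.fixingSubgroup_fixedField]
  have hdeg : Module.finrank F L = Nat.card J := by
    rw [hF, IntermediateField.finrank_fixedField_eq_card]
  have hP : ∀ g, g ∉ J → Nat.card J * s vE (r g) = cs (fun σ : L ≃ₐ[K] L => s v σ) J g := by
    intro g hg
    have h5 := hP3 p k K L κ v hR hp F vE t1 t2 g (by rw [hfix]; exact hg)
    rw [hdeg, hfix] at h5
    exact h5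
  have hS : (∑ g ∈ Finset.univ.filter (fun g : L ≃ₐ[K] L => g ∉ J), s v g) =
      Nat.card J * S1 (fun σ : F ≃ₐ[K] F => s vE σ) := by
    unfold S1
    rw [Finset.mul_sum, ← Finset.sum_fiberwise_of_maps_to (g := r)
      (t := Finset.univ.filter (fun σ : F ≃ₐ[K] F => σ ≠ 1))]
    · apply Finset.sum_congr rfl
      intro τ hτ
      rw [Finset.mem_filter] at hτ
      obtain ⟨g, rfl⟩ := hrs τ
      rw [hP g ((hne g).1 hτ.2), ← grf_fib r J hker]
      apply Finset.sum_congr _ (fun _ _ => rfl)
      ext x
      simp only [Finset.mem_filter, Finset.mem_univ, true_and]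
      constructor
      · rintro ⟨-, h⟩
        exact h
      · intro h
        exact ⟨(hne x).1 (h ▸ hτ.2), h⟩
    · intro g hg
      rw [Finset.mem_filter] at hg ⊢
      exact ⟨Finset.mem_univ _, (hne g).2 hg.2⟩
  rw [hcJ] at hS
  rw [← hS]
  have hsplit : S1 (fun σ : L ≃ₐ[K] L => s v σ) =
      (∑ g ∈ (Finset.univ.filter (fun g : L ≃ₐ[K] L => g ≠ 1)).filter (fun g => g ∈ J),
        s v g) +
      ∑ g ∈ (Finset.univ.filter (fun g : L ≃ₐ[K] L => g ≠ 1)).filter (fun g => ¬ g ∈ J),
        s v g := by
    unfold S1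
    exact (Finset.sum_filter_add_sum_filter_not _ _ _).symm
  rw [hsplit]
  have h2 : (Finset.univ.filter (fun g : L ≃ₐ[K] L => g ≠ 1)).filter (fun g => ¬ g ∈ J) =
      Finset.univ.filter (fun g : L ≃ₐ[K] L => g ∉ J) := by
    ext g
    simp only [Finset.mem_filter, Finset.mem_univ, true_and]
    constructor
    · rintro ⟨-, h⟩
      exact h
    · intro h
      exact ⟨fun h1 => h (h1 ▸ J.one_mem), h⟩
  rw [h2]
  apply Nat.add_le_add_right
  have hcard : ((Finset.univ.filter (fun g : L ≃ₐ[K] L => g ≠ 1)).filter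
      (fun g => g ∈ J)).card = p - 1 := by
    have h3 : (Finset.univ.filter (fun g : L ≃ₐ[K] L => g ≠ 1)).filter (fun g => g ∈ J) =
        (Finset.univ.filter (fun g : L ≃ₐ[K] L => g ∈ J)).erase 1 := by
      ext g
      simp only [Finset.mem_filter, Finset.mem_univ, true_and, Finset.mem_erase]
    rw [h3, Finset.card_erase_of_mem (by simp [J.one_mem])]
    have h4 : (Finset.univ.filter (fun g : L ≃ₐ[K] L => g ∈ J)).card = Nat.card J := by
      rw [Nat.card_eq_fintype_card, Fintype.card_subtype]
    rw [h4, hcJ]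
  rw [← hcard, ← smul_eq_mul]
  apply Finset.card_nsmul_le_sum
  intro g hg
  simp only [Finset.mem_filter, Finset.mem_univ, true_and] at hg
  obtain ⟨hg1, hgJ⟩ := hg
  have : Finite (L ≃ₐ[K] L) := inferInstance
  rw [hJ] at hgJ
  obtain ⟨n, rfl⟩ := (mem_powers_iff_mem_zpowers.2 hgJ)
  exact apx_pow (fun σ : L ≃ₐ[K] L => s v σ) hrf ζ n hg1

end

theorem apx_main (hBAS : ST_BAS.{u}) (hS1 : ST_S1.{u}) (hRFV : ST_RFV.{u}) (hBCH : ST_BCH.{u})
    (hP3 : ST_P3.{u}) (p : ℕ) [Fact p.Prime] (k K : Type u) [Field k] [CharP k p]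
    [IsAlgClosed k] [Field K] (κ : k →+* K) : ∀ (n : ℕ) (L : Type u) [Field L] [Algebra K L]
    [FiniteDimensional K L] [IsGalois K L] (v : AddValuation L (WithTop ℤ)), Ram κ v →
    IsPGroup p (L ≃ₐ[K] L) → Module.finrank K L ≤ n →
    ∀ (h : L) (m : ℤ), (∀ σ : L ≃ₐ[K] L, (m : WithTop ℤ) ≤ v (σ h - h)) →
    ∃ H : K, ((((p : ℤ) - 1) * m - S1 (fun σ : L ≃ₐ[K] L => s v σ) : ℤ) : WithTop ℤ) ≤
      (p - 1) • v (h - algebraMap K L H) := by
  intro n
  have hp2 : 2 ≤ p := (Fact.out : p.Prime).two_le
  have hp1 : 0 < p - 1 := by omega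
  have hpp : 0 < p := by omega
  have hcast : ((p - 1 : ℕ) : ℤ) = (p : ℤ) - 1 := by push_cast [Nat.cast_sub (by omega : 1 ≤ p)]; ring
  induction n with
  | zero =>
    intro L _ _ _ _ v hR hG hn
    have : 0 < Module.finrank K L := Module.finrank_pos
    omega
  | succ n ih =>
    intro L _ _ _ _ v hR hG hn h m hm
    by_cases htr : Nontrivial (L ≃ₐ[K] L)
    swap
    · rw [not_nontrivial_iff_subsingleton] at htr
      have h1 : h ∈ (⊥ : IntermediateField K L) := by
        rw [IsGalois.mem_bot_iff_fixed]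
        intro f
        rw [Subsingleton.elim f 1]
        rfl
      obtain ⟨H, hH⟩ := IntermediateField.mem_bot.1 h1
      refine ⟨H, ?_⟩
      rw [hH, sub_self, AddValuation.map_zero, apx_top _ hp1]
      exact le_top
    · -- a central element of order `p`
      obtain ⟨ζ, hζc, hζo⟩ : ∃ ζ : L ≃ₐ[K] L, ζ ∈ Subgroup.center (L ≃ₐ[K] L) ∧
          orderOf ζ = p := by
        have hc : Nontrivial (Subgroup.center (L ≃ₐ[K] L)) := hG.center_nontrivial
        have hcp : IsPGroup p (Subgroup.center (L ≃ₐ[K] L)) := hG.to_subgroup _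
        obtain ⟨e, he, hcard⟩ := hcp.nontrivial_iff_card.1 hc
        have hdvd : p ∣ Nat.card (Subgroup.center (L ≃ₐ[K] L)) := by
          rw [hcard]
          exact dvd_pow_self p (by omega)
        obtain ⟨z, hz⟩ := exists_prime_orderOf_dvd_card' p hdvd
        exact ⟨z, z.2, by rw [Subgroup.orderOf_coe]; exact hz⟩
      have hnorm : (Subgroup.zpowers ζ).Normal := by
        refine ⟨fun g hg x => ?_⟩
        have hgc : g ∈ Subgroup.center (L ≃ₐ[K] L) :=
          (Subgroup.zpowers_le.2 hζc) hg
        have h2 := (Subgroup.mem_center_iff.1 hgc) x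
        rw [h2, mul_assoc, mul_inv_cancel, mul_one]
        exact hg
      set E := IntermediateField.fixedField (Subgroup.zpowers ζ) with hE
      have hq : Module.finrank E L = p := by
        rw [hE, IntermediateField.finrank_fixedField_eq_card, Nat.card_zpowers, hζo]
      obtain ⟨vE, t1, t2⟩ := hR.sub E
      have hRE : Ram κ vE := grf_quot κ v hR E vE t1 t2
      have hGE : IsPGroup p (E ≃ₐ[K] E) :=
        hG.of_surjective (AlgEquiv.restrictNormalHom E) (AlgEquiv.restrictNormalHom_surjective L)
      have hfE : Module.finrank K E ≤ n := by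
        have h1 := Module.finrank_mul_finrank K E L
        have h2 : 0 < Module.finrank K E := Module.finrank_pos
        rw [hq] at h1
        nlinarith
      have hS := apx_S1 hP3 hRFV p κ v hR hG ζ hζo (Subgroup.zpowers ζ) rfl E hE vE t1 t2
      have hζ1 : ζ ≠ 1 := by
        intro h1
        rw [h1, orderOf_one] at hζo
        omega
      have hex : ∃ x, (ζ : L →+* L) x ≠ x := by
        by_contra hcon
        push Not at hcon
        exact hζ1 (AlgEquiv.ext hcon)
      obtain ⟨-, -, hexact⟩ := hS1 p k L ((algebraMap K L).comp κ) v hR.tv (ζ : L →+* L)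
        (fun c => ζ.commutes (κ c)) (fun x => hR.inv ζ x)
        ⟨1, fun x => by
          have h1 : ζ ^ (p ^ 1) = 1 := by rw [pow_one, ← hζo]; exact pow_orderOf_eq_one ζ
          have h2 : ∀ j : ℕ, (⇑(ζ : L →+* L))^[j] x = (ζ ^ j) x := by
            intro j
            induction j with
            | zero => rfl
            | succ j ihj =>
              rw [Function.iterate_succ_apply', ihj, pow_succ']
              rfl
          rw [h2, h1]
          rfl⟩ hex
      -- the expansion
      obtain ⟨π, hπ⟩ := hR.tv.unif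
      obtain ⟨a, ha, -, hint⟩ := hBAS k E L ((algebraMap K E).comp κ) v (hBCH k K L κ v hR E)
        π hπ h
      set i0 : Fin (Module.finrank E L) := ⟨0, Module.finrank_pos⟩ with hi0
      set r : L := h - algebraMap E L (a i0) with hr
      have hrsum : r = ∑ i ∈ Finset.univ.erase i0, a i • π ^ (i : ℕ) := by
        rw [hr]
        conv_lhs => rw [ha]
        rw [← Finset.add_sum_erase Finset.univ _ (Finset.mem_univ i0)]
        rw [hi0]
        simp [Algebra.smul_def]
      have hvf : ∀ i, a i • π ^ (i : ℕ) ≠ 0 → ∃ b : ℤ, v (a i • π ^ (i : ℕ)) =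
          (((p : ℤ) * b + (i : ℕ) : ℤ) : WithTop ℤ) := by
        intro i hi
        obtain ⟨b, hb⟩ := hint i
        have ha0 : algebraMap E L (a i) ≠ 0 := by
          intro h1
          apply hi
          rw [Algebra.smul_def, h1, zero_mul]
        rw [hq] at hb
        induction b using WithTop.recTopCoe with
        | top =>
          rw [apx_top p hpp] at hb
          exact absurd ((AddValuation.top_iff v).1 hb) ha0
        | coe b =>
          refine ⟨b, ?_⟩
          rw [Algebra.smul_def, AddValuation.map_mul, AddValuation.map_pow, hb, hπ,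
            ← WithTop.coe_nsmul, ← WithTop.coe_one, ← WithTop.coe_nsmul, ← WithTop.coe_add]
          simp
      have hclaim : r = 0 ∨ ∃ m' : ℤ, v r = (m' : WithTop ℤ) ∧ ¬ (p : ℤ) ∣ m' := by
        rw [hrsum]
        apply apx_val v (fun i : Fin (Module.finrank E L) => a i • π ^ (i : ℕ))
          (fun m' => ¬ (p : ℤ) ∣ m')
        · intro i hi j hj hij hfi heq
          obtain ⟨b, hb⟩ := hvf i hfi
          have hfj : a j • π ^ (j : ℕ) ≠ 0 := by
            intro h1
            simp only [h1, AddValuation.map_zero] at heq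
            rw [hb] at heq
            exact WithTop.coe_ne_top heq
          obtain ⟨b', hb'⟩ := hvf j hfj
          simp only [hb, hb', WithTop.coe_inj] at heq
          apply hij
          have hi1 : (i : ℕ) < p := lt_of_lt_of_eq i.2 hq
          have hj1 : (j : ℕ) < p := lt_of_lt_of_eq j.2 hq
          ext
          have h1 : ((i : ℕ) : ℤ) % p = ((j : ℕ) : ℤ) % p := by
            have h2 : ((p : ℤ) * b + ((i : ℕ) : ℤ)) % p = ((p : ℤ) * b' + ((j : ℕ) : ℤ)) % p := by
              rw [heq]
            rw [Int.mul_add_emod_self_left, Int.mul_add_emod_self_left] at h2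
            exact h2
          rw [Int.emod_eq_of_lt (by positivity) (by exact_mod_cast hi1),
            Int.emod_eq_of_lt (by positivity) (by exact_mod_cast hj1)] at h1
          exact_mod_cast h1
        · intro i hi hfi
          obtain ⟨b, hb⟩ := hvf i hfi
          refine ⟨_, hb, ?_⟩
          intro hdvd
          have h1 : (p : ℤ) ∣ ((i : ℕ) : ℤ) := (Int.dvd_add_right (dvd_mul_right _ _)).1 hdvd
          have h2 : p ∣ (i : ℕ) := by exact_mod_cast h1
          have hi1 : (i : ℕ) < p := lt_of_lt_of_eq i.2 hq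
          have h3 : (i : ℕ) = 0 := Nat.eq_zero_of_dvd_of_lt h2 hi1
          apply (Finset.mem_erase.1 hi).1
          ext
          exact h3
      have hζfix : ζ (algebraMap E L (a i0)) = algebraMap E L (a i0) :=
        (a i0).2 ⟨ζ, Subgroup.mem_zpowers ζ⟩
      have hvr : ((m - s v ζ : ℤ) : WithTop ℤ) ≤ v r := by
        rcases hclaim with h1 | ⟨m', hm', hnd⟩
        · rw [h1, AddValuation.map_zero]; exact le_top
        · have h2 := hexact r m' hm' hnd
          have h3 : (ζ : L →+* L) r - r = ζ h - h := by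
            change ζ r - r = ζ h - h
            rw [hr, map_sub, hζfix]
            ring
          rw [h3] at h2
          have h4 := hm ζ
          rw [h2, WithTop.coe_le_coe] at h4
          rw [hm', WithTop.coe_le_coe]
          have h5 : s v (ζ : L →+* L) = s v ζ := rfl
          rw [h5] at h4
          omega
      -- the element `a i0` of `E`
      have hEineq : ∀ τ : E ≃ₐ[K] E, ((-((-(m - s v ζ)) / (p : ℤ)) : ℤ) : WithTop ℤ) ≤
          vE (τ (a i0) - a i0) := by
        intro τ
        have h1 : ((m - s v ζ : ℤ) : WithTop ℤ) ≤ p • vE (τ (a i0) - a i0) := by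
          rw [← hq, ← t2]
          have h3 := AlgEquiv.liftNormal_commutes τ L (a i0)
          have h4 : ((τ (a i0) - a i0 : E) : L) =
              τ.liftNormal L (algebraMap E L (a i0)) - algebraMap E L (a i0) := by
            rw [h3]
            rfl
          rw [h4]
          set σ := τ.liftNormal L
          have h5 : σ (algebraMap E L (a i0)) - algebraMap E L (a i0) =
              (σ h - h) - (σ r - r) := by
            rw [hr, map_sub]
            ring
          rw [h5]
          refine le_trans ?_ (AddValuation.map_sub v _ _)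
          refine le_min ?_ ?_
          · refine le_trans ?_ (hm σ)
            rw [WithTop.coe_le_coe]
            have : (0 : ℤ) ≤ s v ζ := Int.natCast_nonneg _
            linarith
          · refine le_trans ?_ (AddValuation.map_sub v _ _)
            rw [hR.inv]
            exact le_min hvr hvr
        rw [apx_nsmul_le p hpp] at h1
        rcases h1 with h1 | ⟨b, hb, h1⟩
        · rw [h1]; exact le_top
        · rw [hb, WithTop.coe_le_coe]
          have h6 : -b ≤ (-(m - s v ζ)) / (p : ℤ) := by
            rw [Int.le_ediv_iff_mul_le (by exact_mod_cast hpp)]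
            linarith
          linarith
      obtain ⟨H, hH⟩ := ih E vE hRE hGE hfE (a i0) _ hEineq
      refine ⟨H, ?_⟩
      set c : ℤ := m - s v ζ with hc
      set m1 : ℤ := -((-c) / (p : ℤ)) with hm1
      have hm1p : c ≤ (p : ℤ) * m1 := by
        have h1 := Int.mul_ediv_self_le (x := -c) (k := (p : ℤ)) (by exact_mod_cast hpp.ne')
        rw [hm1]
        linarith
      set SE := S1 (fun σ : E ≃ₐ[K] E => s vE σ) with hSE
      set SL := S1 (fun σ : L ≃ₐ[K] L => s v σ) with hSL
      have hS' : ((p : ℤ) - 1) * s v ζ + p * SE ≤ SL := by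
        have h1 : (((p - 1) * s v ζ + p * SE : ℕ) : ℤ) ≤ (SL : ℤ) := by exact_mod_cast hS
        rw [Nat.cast_add, Nat.cast_mul, Nat.cast_mul, hcast] at h1
        exact h1
      have hv2 : ((((p : ℤ) - 1) * m - SL : ℤ) : WithTop ℤ) ≤
          (p - 1) • v (algebraMap E L (a i0) - algebraMap K L H) := by
        have h1 : algebraMap E L (a i0) - algebraMap K L H =
            ((a i0 - algebraMap K E H : E) : L) := rfl
        rw [h1, t2, hq]
        rw [apx_nsmul_le _ hp1] at hH ⊢
        rcases hH with hH | ⟨b, hb, hH⟩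
        · left
          rw [hH, apx_top p hpp]
        · right
          refine ⟨(p : ℤ) * b, ?_, ?_⟩
          · rw [hb, ← WithTop.coe_nsmul, nsmul_eq_mul]
          · rw [hcast] at hH ⊢
            have hp1' : (0 : ℤ) ≤ (p : ℤ) - 1 := by rw [← hcast]; positivity
            have hpp' : (0 : ℤ) ≤ (p : ℤ) := by positivity
            have e1 := mul_le_mul_of_nonneg_left hH hpp'
            have e2 := mul_le_mul_of_nonneg_left hm1p hp1'
            rw [hc] at e2
            nlinarith [e1, e2, hS']
      have hv1 : ((((p : ℤ) - 1) * m - SL : ℤ) : WithTop ℤ) ≤ (p - 1) • v r := by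
        rw [apx_nsmul_le _ hp1]
        induction hvrr : v r using WithTop.recTopCoe with
        | top => exact Or.inl rfl
        | coe b =>
          right
          refine ⟨b, rfl, ?_⟩
          rw [hvrr, WithTop.coe_le_coe] at hvr
          rw [hcast]
          have hp1' : (0 : ℤ) ≤ (p : ℤ) - 1 := by rw [← hcast]; positivity
          have e1 := mul_le_mul_of_nonneg_left hvr hp1'
          have e2 : (0 : ℤ) ≤ p * SE := by positivity
          rw [hc] at e1
          nlinarith [e1, e2, hS']
      have hsum : h - algebraMap K L H = r + (algebraMap E L (a i0) - algebraMap K L H) := by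
        rw [hr]; ring
      rw [hsum]
      rcases le_total (v r) (v (algebraMap E L (a i0) - algebraMap K L H)) with hle | hle
      · refine le_trans hv1 (nsmul_le_nsmul_right ?_ _)
        refine le_trans ?_ (AddValuation.map_add v _ _)
        exact le_min le_rfl hle
      · refine le_trans hv2 (nsmul_le_nsmul_right ?_ _)
        refine le_trans ?_ (AddValuation.map_add v _ _)
        exact le_min hle le_rfl

theorem st_APX (hBAS : ST_BAS.{u}) (hS1 : ST_S1.{u}) (hRFV : ST_RFV.{u}) (hBCH : ST_BCH.{u})
    (hP3 : ST_P3.{u}) : ST_APX.{u} := by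
  intro p _ k K L _ _ _ _ _ _ _ _ κ v hR hG h m hm
  exact apx_main hBAS hS1 hRFV hBCH hP3 p k K κ (Module.finrank K L) L v hR hG le_rfl h m hm

end Pool.Agent.Helper20.NP
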