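import Pool.Agent.Helper22.NP.Basic

/-! # Herbrand's coset formula -/

namespace Pool.Agent.Helper22.NP

open scoped Classical
open Polynomial

section hrb

variable {G k M : Type} [Field k] [Field M] [Group G] [MulSemiringAction G M]
  {ι : k →+* M} {v : AddValuation M (WithTop ℤ)}

/-- the integral elements -/
def hrb_O (v : AddValuation M (WithTop ℤ)) : Subring M where
  carrier := {x | 0 ≤ v x}
  mul_mem' := by
    intro a b ha hb
    show 0 ≤ v (a * b)
    rw [v.map_mul]
    exact add_nonneg ha hb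
  one_mem' := by
    show 0 ≤ v 1
    rw [v.map_one]
  add_mem' := fun {a b} ha hb => v.map_le_add ha hb
  zero_mem' := by
    show 0 ≤ v 0
    rw [v.map_zero]
    exact le_top
  neg_mem' := by
    intro a ha
    show 0 ≤ v (-a)
    rw [v.map_neg]
    exact ha

/-- the action on the integral elements -/
def hrb_act (h : GS G ι v) (g : G) : hrb_O v →+* hrb_O v where
  toFun a := ⟨g • (a : M), by
    show 0 ≤ v (g • (a : M))
    rw [h.inv]
    exact a.2⟩
  map_one' := Subtype.ext (smul_one g)
  map_mul' a b := Subtype.ext (smul_mul' g (a : M) (b : M))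
  map_zero' := Subtype.ext (smul_zero g)
  map_add' a b := Subtype.ext (smul_add g (a : M) (b : M))

theorem hrb_min {N : ℕ} (t : Fin N → M)
    (hd : ∀ i j, i ≠ j → t i ≠ 0 → t j ≠ 0 → v (t i) ≠ v (t j)) (j : Fin N) :
    v (∑ i, t i) ≤ v (t j) := by
  by_cases hj : t j = 0
  · rw [hj, v.map_zero]
    exact le_top
  obtain ⟨j0, -, hj0⟩ := Finset.exists_min_image Finset.univ (fun i => v (t i))
    ⟨j, Finset.mem_univ j⟩
  have h1 : v (t j0) ≤ v (t j) := hj0 j (Finset.mem_univ j)
  have h2 : v (t j0) ≠ ⊤ := fun h => hj (v.top_iff.1 (top_le_iff.1 (h ▸ h1)))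
  have h3 : t j0 ≠ 0 := fun h => h2 (v.top_iff.2 h)
  have h4 : ∀ i ∈ Finset.univ.erase j0, v (t j0) < v (t i) := by
    intro i hi
    by_cases hi0 : t i = 0
    · rw [hi0, v.map_zero]
      exact lt_top_iff_ne_top.2 h2
    · exact lt_of_le_of_ne (hj0 i (Finset.mem_univ i))
        (hd j0 i (Finset.ne_of_mem_erase hi).symm h3 hi0)
  have h5 : v (t j0) < v (∑ i ∈ Finset.univ.erase j0, t i) := v.map_lt_sum h2 h4
  rw [← Finset.add_sum_erase Finset.univ t (Finset.mem_univ j0), v.map_add_eq_of_lt_left h5]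
  exact h1

theorem hrb_pow {y : M} (hy : v y = 1) (j : ℕ) : v (y ^ j) = ((j : ℤ) : WithTop ℤ) := by
  induction j with
  | zero => simp
  | succ j ih =>
    rw [pow_succ, v.map_mul, ih, hy, Nat.cast_succ, WithTop.coe_add]
    rfl

/-- expansion in powers of a uniformizer over the fixed field -/
theorem hrb_poly [Fintype G] (hTRM : ST_TRM) (h : GS G ι v) {y : M} (hy : v y = 1) {x : M}
    (hx : 0 ≤ v x) : ∃ c : Fin (Fintype.card G) → M,
      (∀ j, (∀ g : G, g • c j = c j) ∧ 0 ≤ v (c j)) ∧ x = ∑ j, c j * y ^ (j : ℕ) := by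
  have hF : FaithfulSMul G M := ⟨fun {a b} hab => by
    have := h.fai (b⁻¹ * a) fun x => by rw [mul_smul, hab x, inv_smul_smul]
    exact (inv_mul_eq_one.1 this).symm⟩
  set N := Fintype.card G with hN
  have hN0 : 0 < N := Fintype.card_pos
  have hval : ∀ c : M, c ≠ 0 → (∀ g : G, g • c = c) → ∀ j : ℕ, ∃ m : ℤ,
      v c = ((m * N : ℤ) : WithTop ℤ) ∧ v (c * y ^ j) = ((m * N + j : ℤ) : WithTop ℤ) := by
    intro c hc hg j
    obtain ⟨m, hm⟩ := (hTRM G k M ι v h ⊤).2 c hc fun g _ => hg g
    rw [Subgroup.card_top, Nat.card_eq_fintype_card] at hm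
    refine ⟨m, hm, ?_⟩
    rw [v.map_mul, hm, hrb_pow hy, WithTop.coe_add]
  have hdist : ∀ c : Fin N → FixedPoints.subfield G M, ∀ i j : Fin N, i ≠ j →
      (c i : M) * y ^ (i : ℕ) ≠ 0 → (c j : M) * y ^ (j : ℕ) ≠ 0 →
      v ((c i : M) * y ^ (i : ℕ)) ≠ v ((c j : M) * y ^ (j : ℕ)) := by
    intro c i j hij hi hj he
    obtain ⟨m, -, hm⟩ := hval (c i) (left_ne_zero_of_mul hi) (c i).2 i
    obtain ⟨m', -, hm'⟩ := hval (c j) (left_ne_zero_of_mul hj) (c j).2 j
    rw [hm, hm', WithTop.coe_eq_coe] at he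
    apply hij
    apply Fin.ext
    have h1 : ((i : ℕ) : ℤ) % N = ((j : ℕ) : ℤ) % N := by
      have := congrArg (fun z : ℤ => z % (N : ℤ)) he
      simpa [Int.add_emod, Int.mul_emod_left] using this
    rw [Int.emod_eq_of_lt (by positivity) (by exact_mod_cast i.2),
      Int.emod_eq_of_lt (by positivity) (by exact_mod_cast j.2)] at h1
    exact_mod_cast h1
  have hli : LinearIndependent (FixedPoints.subfield G M) fun j : Fin N => y ^ (j : ℕ) := by
    rw [Fintype.linearIndependent_iff]
    intro c hc j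
    have h1 := hrb_min (v := v) (fun j => (c j : M) * y ^ (j : ℕ)) (hdist c) j
    have h2 : ∑ j : Fin N, (c j : M) * y ^ (j : ℕ) = 0 := hc
    rw [h2, v.map_zero, top_le_iff, v.top_iff] at h1
    have hy0 : y ^ (j : ℕ) ≠ 0 := by
      apply pow_ne_zero
      intro h0
      rw [h0, v.map_zero] at hy
      exact absurd hy (by simp)
    exact Subtype.ext ((mul_eq_zero.1 h1).resolve_right hy0)
  have hfr : Module.finrank (FixedPoints.subfield G M) M = N := FixedPoints.finrank_eq_card G M
  have : Nonempty (Fin N) := ⟨⟨0, hN0⟩⟩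
  let b := basisOfLinearIndependentOfCardEqFinrank hli (by rw [Fintype.card_fin, hfr])
  have hb : ∀ j, b j = y ^ (j : ℕ) := fun j => by
    simp [b]
  have hsum : x = ∑ j, (b.repr x j : M) * y ^ (j : ℕ) := by
    conv_lhs => rw [← b.sum_repr x]
    refine Finset.sum_congr rfl fun j _ => ?_
    rw [hb]
    rfl
  refine ⟨fun j => (b.repr x j : M), fun j => ⟨(b.repr x j).2, ?_⟩, hsum⟩
  show 0 ≤ v (b.repr x j : M)
  by_cases h0 : (b.repr x j : M) = 0
  · rw [h0, v.map_zero]
    exact le_top
  have h1 := hrb_min (v := v) (fun j => (b.repr x j : M) * y ^ (j : ℕ)) (hdist _) j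
  rw [← hsum] at h1
  obtain ⟨m, hm1, hm2⟩ := hval _ h0 (b.repr x j).2 j
  rw [hm2] at h1
  have h2 : (0 : ℤ) ≤ m * N + j := by
    have := hx.trans h1
    exact_mod_cast this
  have h3 : ((j : ℕ) : ℤ) < N := by exact_mod_cast j.2
  have h4 : (0 : ℤ) < N := by exact_mod_cast hN0
  have h5 : 0 ≤ m := by
    by_contra hlt
    have : m ≤ -1 := by omega
    nlinarith
  rw [hm1]
  exact_mod_cast mul_nonneg h5 h4.le

theorem hrb_prod {α : Type} (s : Finset α) (a : α → M) (n : α → ℕ)
    (h : ∀ i ∈ s, v (a i) = (((n i : ℕ) : ℤ) : WithTop ℤ)) :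
    v (∏ i ∈ s, a i) = (((∑ i ∈ s, n i : ℕ) : ℤ) : WithTop ℤ) := by
  induction s using Finset.induction_on with
  | empty => simp
  | insert b s hb ih =>
    rw [Finset.prod_insert hb, Finset.sum_insert hb, v.map_mul, h b (Finset.mem_insert_self b s),
      ih fun i hi => h i (Finset.mem_insert_of_mem hi), Nat.cast_add, WithTop.coe_add]

/-- an integral element of the fixed field is moved at least as much as a uniformizer of the
fixed field -/
theorem hrb_peel [Finite G] (hTRM : ST_TRM) (h : GS G ι v) (H : Subgroup G) {x : M}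
    (hxH : ∀ t ∈ H, t • x = x) (hvx : v x = (((Nat.card H : ℕ) : ℤ) : WithTop ℤ)) (σ : G) (m : ℕ) :
    ∀ c : M, 0 ≤ v c → (∀ t ∈ H, t • c = c) →
      min (v (σ • x - x)) (((Nat.card H * m : ℕ) : ℤ) : WithTop ℤ) ≤ v (σ • c - c) := by
  have hn : 0 < Nat.card H := Nat.card_pos
  have hx0 : x ≠ 0 := by
    rintro rfl
    rw [v.map_zero] at hvx
    exact absurd hvx (by simp)
  have hdiff : ∀ c : M, 0 ≤ v c → 0 ≤ v (σ • c - c) := fun c hc =>
    v.map_le_sub (by rw [h.inv]; exact hc) hc
  induction m with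
  | zero =>
    intro c hc _
    refine (min_le_right _ _).trans ?_
    rw [mul_zero]
    exact hdiff c hc
  | succ m ih =>
    intro c hc hcH
    obtain ⟨a, ha⟩ := h.rv.res c hc
    have hfix : ∀ t ∈ H, t • (c - ι a) = c - ι a := fun t ht => by
      rw [smul_sub, hcH t ht, h.fix]
    have hge : (((Nat.card H : ℕ) : ℤ) : WithTop ℤ) ≤ v (c - ι a) := by
      by_cases h0 : c - ι a = 0
      · rw [h0, v.map_zero]
        exact le_top
      obtain ⟨l, hl⟩ := (hTRM G k M ι v h H).2 _ h0 hfix
      rw [hl] at ha ⊢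
      have h1 : 0 < l * (Nat.card H : ℤ) := by exact_mod_cast ha
      have h2 : (0 : ℤ) < (Nat.card H : ℤ) := by exact_mod_cast hn
      have h3 : 0 < l := by
        by_contra hlt
        have : l ≤ 0 := not_lt.1 hlt
        nlinarith
      rw [WithTop.coe_le_coe]
      nlinarith
    -- divide by `x`
    set d : M := (c - ι a) / x with hd
    have hdx : c = ι a + x * d := by
      rw [hd, mul_div_cancel₀ _ hx0]
      ring
    have hd0 : 0 ≤ v d := by
      have e : v (c - ι a) = (((Nat.card H : ℕ) : ℤ) : WithTop ℤ) + v d := by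
        rw [← hvx, ← v.map_mul, hd, mul_div_cancel₀ _ hx0]
      rw [e] at hge
      by_contra hlt
      have h1 : v d < 0 := not_le.1 hlt
      have h2 : v d ≠ ⊤ := (h1.trans_le le_top).ne
      obtain ⟨z, hz⟩ := WithTop.ne_top_iff_exists.1 h2
      rw [← hz] at h1 hge
      rw [← WithTop.coe_add, WithTop.coe_le_coe] at hge
      have h3 : z < 0 := by exact_mod_cast h1
      omega
    have hdH : ∀ t ∈ H, t • d = d := fun t ht => by
      rw [hd, smul_div₀', hfix t ht, hxH t ht]
    have e : σ • c - c = (σ • x - x) * (σ • d) + x * (σ • d - d) := by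
      rw [hdx, smul_add, h.fix, smul_mul']
      ring
    rw [e]
    refine v.map_le_add ?_ ?_
    · rw [v.map_mul, h.inv]
      exact (min_le_left _ _).trans (le_add_of_nonneg_right hd0)
    · rw [v.map_mul, hvx]
      have h1 := ih d hd0 hdH
      rcases le_total (v (σ • x - x)) (((Nat.card H * m : ℕ) : ℤ) : WithTop ℤ) with h2 | h2
      · rw [min_eq_left h2] at h1
        refine (min_le_left _ _).trans (h1.trans ?_)
        refine le_add_of_nonneg_left ?_
        exact_mod_cast Nat.zero_le _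
      · rw [min_eq_right h2] at h1
        refine (min_le_right _ _).trans ?_
        refine le_trans ?_ (add_le_add_right h1 _)
        rw [← WithTop.coe_add, WithTop.coe_le_coe]
        push_cast
        linarith

end hrb

theorem st_HRB (hRAM : ST_RAM) (hTRM : ST_TRM) : ST_HRB := by
  intro G k M _ _ _ _ _ ι v h H x hxH hvx σ hσ
  obtain ⟨y, hy⟩ := h.rv.uni
  have hy0 : 0 ≤ v y := by
    rw [hy]
    exact zero_le_one
  have hx0 : 0 ≤ v x := by
    rw [hvx]
    exact_mod_cast Nat.zero_le _
  have hn : 0 < Nat.card H := Nat.card_pos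
  set y' : hrb_O v := ⟨y, hy0⟩ with hy'
  set x' : hrb_O v := ⟨x, hx0⟩ with hx'
  set f : (hrb_O v)[X] := ∏ t : H, (X - C (hrb_act h (t : G) y')) with hf
  set B : ℕ := ∑ t : H, ram v (σ * (t : G)) with hB
  have hfs : f.eval₂ (hrb_act h σ) y' = ∏ t : H, (y' - hrb_act h σ (hrb_act h (t : G) y')) := by
    rw [hf, eval₂_finsetProd]
    refine Finset.prod_congr rfl fun t _ => ?_
    rw [eval₂_sub, eval₂_X, eval₂_C]
  have hvfs : v ((f.eval₂ (hrb_act h σ) y' : hrb_O v) : M) = ((B : ℤ) : WithTop ℤ) := by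
    have e : ((f.eval₂ (hrb_act h σ) y' : hrb_O v) : M) = ∏ t : H, (y - σ • (t : G) • y) := by
      rw [hfs]
      exact map_prod (hrb_O v).subtype _ _
    rw [e]
    refine hrb_prod _ _ _ fun t _ => ?_
    have hne : σ * (t : G) ≠ 1 := by
      intro h1
      apply hσ
      rw [mul_eq_one_iff_eq_inv.1 h1]
      exact H.inv_mem t.2
    rw [v.map_sub_swap, ← mul_smul]
    exact (hRAM G k M ι v h _ hne).2.1 y hy
  have hup : ((B : ℤ) : WithTop ℤ) ≤ v (σ • x - x) := by
    obtain ⟨c, hc, hxc⟩ := hrb_poly hTRM h hy hx0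
    set g : (hrb_O v)[X] := ∑ j : Fin (Fintype.card G), C (⟨c j, (hc j).2⟩ : hrb_O v) * X ^ (j : ℕ)
      with hg
    have hg1 : ∀ τ : G, g.eval (hrb_act h τ y') = hrb_act h τ x' := by
      intro τ
      apply Subtype.ext
      have e1 : ((g.eval (hrb_act h τ y') : hrb_O v) : M) =
          ∑ j : Fin (Fintype.card G), c j * (τ • y) ^ (j : ℕ) := by
        rw [hg, eval_finsetSum]
        simp only [eval_mul, eval_C, eval_pow, eval_X]
        exact map_sum (hrb_O v).subtype _ _
      have e2 : ((hrb_act h τ x' : hrb_O v) : M) = τ • x := rfl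
      rw [e1, e2, hxc, Finset.smul_sum]
      refine Finset.sum_congr rfl fun j _ => ?_
      rw [smul_mul', smul_pow', (hc j).1]
    have hg2 : g.eval₂ (hrb_act h σ) y' = x' := by
      apply Subtype.ext
      have e1 : ((g.eval₂ (hrb_act h σ) y' : hrb_O v) : M) =
          ∑ j : Fin (Fintype.card G), (σ • c j) * y ^ (j : ℕ) := by
        rw [hg, eval₂_finsetSum]
        simp only [eval₂_mul, eval₂_C, eval₂_pow, eval₂_X]
        exact map_sum (hrb_O v).subtype _ _
      have e2 : (x' : M) = x := rfl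
      rw [e1, e2]
      refine Eq.trans ?_ hxc.symm
      refine Finset.sum_congr rfl fun j _ => ?_
      rw [(hc j).1]
    have hdvd : f ∣ g - C x' := by
      by_cases hQ : g - C x' = 0
      · rw [hQ]
        exact dvd_zero f
      have hfm : f = ((Finset.univ.val.map fun t : H => hrb_act h (t : G) y').map
          fun a => X - C a).prod := by
        rw [hf, Multiset.map_map]
        rfl
      rw [hfm, Multiset.prod_X_sub_C_dvd_iff_le_roots hQ]
      have hinj : Function.Injective fun t : H => hrb_act h (t : G) y' := by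
        intro t t' htt
        by_contra hne
        have h1 : ((t' : G)⁻¹ * t) ≠ 1 := by
          intro h1
          exact hne (Subtype.ext (inv_mul_eq_one.1 h1).symm)
        have h2 := (hRAM G k M ι v h _ h1).2.1 y hy
        have h3 : (t : G) • y = (t' : G) • y := congrArg Subtype.val htt
        rw [mul_smul, h3, inv_smul_smul, sub_self, v.map_zero] at h2
        exact absurd h2 (by simp)
      rw [Multiset.le_iff_subset (Finset.univ.nodup.map hinj)]
      intro a ha
      obtain ⟨t, -, rfl⟩ := Multiset.mem_map.1 ha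
      rw [mem_roots hQ, IsRoot.def, eval_sub, eval_C, hg1, sub_eq_zero]
      exact Subtype.ext (hxH t t.2)
    obtain ⟨q, hq⟩ := hdvd
    have e1 : x' - hrb_act h σ x' = f.eval₂ (hrb_act h σ) y' * q.eval₂ (hrb_act h σ) y' := by
      rw [← eval₂_mul, ← hq, eval₂_sub, hg2, eval₂_C]
    have e2 : x - σ • x = ((f.eval₂ (hrb_act h σ) y' : hrb_O v) : M) *
        ((q.eval₂ (hrb_act h σ) y' : hrb_O v) : M) := congrArg Subtype.val e1
    rw [v.map_sub_swap, e2, v.map_mul, hvfs]
    exact le_add_of_nonneg_right (q.eval₂ (hrb_act h σ) y').2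
  have hlow : v (σ • x - x) ≤ ((B : ℤ) : WithTop ℤ) := by
    have hcoe : ∀ j, ∀ t ∈ H, t • ((f.coeff j : hrb_O v) : M) = (f.coeff j : hrb_O v) := by
      intro j t ht
      have hmap : f.map (hrb_act h t) = f := by
        rw [hf, Polynomial.map_prod]
        simp only [Polynomial.map_sub, map_X, map_C]
        refine Fintype.prod_equiv (Equiv.mulLeft (⟨t, ht⟩ : H)) _ _ fun t' => ?_
        have : hrb_act h t (hrb_act h (t' : G) y') =
            hrb_act h (((Equiv.mulLeft (⟨t, ht⟩ : H)) t' : H) : G) y' :=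
          Subtype.ext (mul_smul t (t' : G) y).symm
        rw [this]
      have h1 := congrArg (fun P : (hrb_O v)[X] => P.coeff j) hmap
      simp only [coeff_map] at h1
      exact congrArg Subtype.val h1
    have hf0 : f.eval y' = 0 := by
      rw [hf, eval_prod]
      refine Finset.prod_eq_zero (Finset.mem_univ (1 : H)) ?_
      rw [eval_sub, eval_X, eval_C, sub_eq_zero]
      exact Subtype.ext (one_smul G y).symm
    have e1 : ((f.eval₂ (hrb_act h σ) y' : hrb_O v) : M) =
        ∑ j ∈ Finset.range (f.natDegree + 1),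
          (σ • ((f.coeff j : hrb_O v) : M) - (f.coeff j : hrb_O v)) * y ^ j := by
      have e2 : f.eval₂ (hrb_act h σ) y' = ∑ j ∈ Finset.range (f.natDegree + 1),
          (hrb_act h σ (f.coeff j) - f.coeff j) * y' ^ j := by
        have e3 : f.eval₂ (hrb_act h σ) y' = f.eval₂ (hrb_act h σ) y' - f.eval y' := by
          rw [hf0, sub_zero]
        rw [e3, eval₂_eq_sum_range, eval_eq_sum_range, ← Finset.sum_sub_distrib]
        exact Finset.sum_congr rfl fun j _ => by rw [sub_mul]
      rw [e2]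
      exact map_sum (hrb_O v).subtype _ _
    have key : min (v (σ • x - x)) (((Nat.card H * (B + 1) : ℕ) : ℤ) : WithTop ℤ) ≤
        ((B : ℤ) : WithTop ℤ) := by
      rw [← hvfs, e1]
      refine v.map_le_sum fun j _ => ?_
      rw [v.map_mul]
      refine (hrb_peel hTRM h H hxH hvx σ (B + 1) _ (f.coeff j).2 (hcoe j)).trans ?_
      refine le_add_of_nonneg_right ?_
      rw [hrb_pow hy]
      exact_mod_cast Nat.zero_le _
    rcases min_le_iff.1 key with h1 | h1
    · exact h1
    · exfalso
      rw [WithTop.coe_le_coe] at h1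
      have h2 : Nat.card H * (B + 1) ≤ B := by exact_mod_cast h1
      have h3 : B + 1 ≤ Nat.card H * (B + 1) := Nat.le_mul_of_pos_left _ hn
      omega
  exact le_antisymm hlow hup

end Pool.Agent.Helper22.NP
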